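import Mathlib

/-!
# Averages of multiplicative functions on far-shifted Gaussian squares

For every `ε > 0` we construct a completely multiplicative `f : ℤ[i] → {0, 1}` whose averages over
the squares `⌊N ^ (1 + ε)⌋ + Q_N` do not converge.

Idea.  For `n` in the shifted square, `log (norm n)` is about `2 (1 + ε) log N`, while comparison with
the square `Q_N` around the origin shows that the prime factors of norm at most `C ^ 2 * N ^ 2`
contribute only about `2 log N` on average.  Hence a proportion at least `ε / (3 + 2 ε)` of the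
elements have a prime factor of norm larger than `C ^ 2 * N ^ 2`.  Choosing one such prime for each
such element at a very sparse sequence of scales, the set of all chosen primes has a small sum of
reciprocals of norms, and `f` is the indicator of the elements with no chosen prime factor.
-/

namespace Pool.Agent.Lib.MP_acc225_nt

open Finset UniqueFactorizationMonoid Filter

/-- the square `c + Q_N` -/
noncomputable def box (c : GaussianInt) (N : ℕ) : Finset GaussianInt :=
  (Finset.Ioo (-(N : ℤ)) N ×ˢ Finset.Ioo (-(N : ℤ)) N).image fun z => c + ⟨z.1, z.2⟩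

theorem mem_box {c n : GaussianInt} {N : ℕ} :
    n ∈ box c N ↔ |n.re - c.re| < N ∧ |n.im - c.im| < N := by
  unfold box
  simp only [Finset.mem_image, Finset.mem_product, Finset.mem_Ioo, Prod.exists, abs_lt]
  constructor
  · rintro ⟨a, b, ⟨⟨h1, h2⟩, h3, h4⟩, rfl⟩
    simp only [Zsqrtd.re_add, Zsqrtd.im_add]
    refine ⟨⟨?_, ?_⟩, ?_, ?_⟩ <;> linarith
  · rintro ⟨⟨h1, h2⟩, h3, h4⟩
    refine ⟨n.re - c.re, n.im - c.im, ⟨⟨h1, h2⟩, h3, h4⟩, ?_⟩
    ext <;> simp

theorem card_box (c : GaussianInt) (N : ℕ) : (box c N).card = (2 * N - 1) ^ 2 := by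
  unfold box
  rw [Finset.card_image_of_injective, Finset.card_product, Int.card_Ioo, sq]
  · congr 1 <;> omega
  · rintro ⟨a, b⟩ ⟨a', b'⟩ h
    have h' := add_left_cancel h
    simp only [Zsqrtd.mk.injEq] at h'
    simpa using h'

/-- representative of small norm of a residue class -/
noncomputable def res (α : GaussianInt) (q : GaussianInt ⧸ Ideal.span {α}) : GaussianInt :=
  (Quotient.out q) % α

theorem mk_res (α : GaussianInt) (q : GaussianInt ⧸ Ideal.span {α}) :
    Ideal.Quotient.mk (Ideal.span {α}) (res α q) = q := by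
  have h : Ideal.Quotient.mk (Ideal.span {α}) (Quotient.out q) = q := Quotient.out_eq q
  conv_rhs => rw [← h]
  rw [Ideal.Quotient.eq, Ideal.mem_span_singleton]
  unfold res
  rw [EuclideanDomain.mod_eq_sub_mul_div]
  exact ⟨-(Quotient.out q / α), by ring⟩

theorem abs_lt_of_norm_lt {x : GaussianInt} {a : ℕ} (h : x.norm < (a : ℤ) ^ 2) :
    |x.re| < a ∧ |x.im| < a := by
  rw [Zsqrtd.norm_def] at h
  constructor
  · apply abs_lt_of_sq_lt_sq _ (by positivity)
    nlinarith [mul_self_nonneg x.im]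
  · apply abs_lt_of_sq_lt_sq _ (by positivity)
    nlinarith [mul_self_nonneg x.re]

theorem res_small {α : GaussianInt} (hα : α ≠ 0) {a : ℕ} (ha : α.norm ≤ (a : ℤ) ^ 2)
    (q : GaussianInt ⧸ Ideal.span {α}) : |(res α q).re| < a ∧ |(res α q).im| < a :=
  abs_lt_of_norm_lt (lt_of_lt_of_le (GaussianInt.norm_mod_lt _ hα) ha)

theorem res_injective (α : GaussianInt) : Function.Injective (res α) := by
  intro q q' h
  rw [← mk_res α q, ← mk_res α q', h]

theorem exists_bound (α : GaussianInt) : ∃ a : ℕ, α.norm ≤ (a : ℤ) ^ 2 := by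
  refine ⟨α.norm.natAbs, ?_⟩
  have h0 := GaussianInt.norm_nonneg α
  have : ((α.norm.natAbs : ℕ) : ℤ) = α.norm := GaussianInt.abs_natCast_norm α
  rw [this]
  rcases eq_or_lt_of_le h0 with h | h
  · rw [← h]; simp
  · nlinarith

theorem finite_quot {α : GaussianInt} (hα : α ≠ 0) : Finite (GaussianInt ⧸ Ideal.span {α}) := by
  obtain ⟨a, ha⟩ := exists_bound α
  have : Finite (box 0 a) := inferInstance
  refine Finite.of_injective (β := box 0 a) (fun q => ⟨res α q, ?_⟩) ?_
  · rw [mem_box]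
    simpa using res_small hα ha q
  · intro q q' h
    exact res_injective α (by simpa using h)

/-- number of residue classes modulo `α` -/
noncomputable def rc (α : GaussianInt) : ℕ := Nat.card (GaussianInt ⧸ Ideal.span {α})

theorem rc_pos {α : GaussianInt} (hα : α ≠ 0) : 0 < rc α := by
  have := finite_quot hα
  exact Nat.card_pos

open Classical in
theorem count_upper {α : GaussianInt} (hα : α ≠ 0) {a : ℕ} (ha : α.norm ≤ (a : ℤ) ^ 2)
    (c : GaussianInt) (N : ℕ) :
    ((box c N).filter (α ∣ ·)).card * rc α ≤ (2 * (N + a) - 1) ^ 2 := by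
  have := finite_quot hα
  have := Fintype.ofFinite (GaussianInt ⧸ Ideal.span {α})
  unfold rc
  rw [Nat.card_eq_fintype_card, ← Finset.card_univ, ← Finset.card_product, ← card_box c (N + a)]
  apply Finset.card_le_card_of_injOn (fun z => z.1 + res α z.2)
  · rintro ⟨n, q⟩ hz
    simp only [Finset.coe_product, Set.mem_prod, Finset.mem_coe, Finset.mem_filter] at hz
    obtain ⟨⟨h1, h2⟩, -⟩ := hz
    rw [mem_box] at h1
    have h3 := res_small hα ha q
    simp only [Finset.mem_coe, mem_box, Zsqrtd.re_add, Zsqrtd.im_add, Nat.cast_add, abs_lt] at *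
    refine ⟨⟨?_, ?_⟩, ?_, ?_⟩ <;> linarith [h1.1.1, h1.1.2, h1.2.1, h1.2.2, h3.1.1, h3.1.2, h3.2.1, h3.2.2]
  · rintro ⟨n, q⟩ hz ⟨n', q'⟩ hz' h
    simp only [Finset.coe_product, Set.mem_prod, Finset.mem_coe, Finset.mem_filter] at hz hz' h
    obtain ⟨⟨h1, h2⟩, -⟩ := hz
    obtain ⟨⟨h1', h2'⟩, -⟩ := hz'
    have e : q = q' := by
      rw [← mk_res α q, ← mk_res α q', Ideal.Quotient.eq, Ideal.mem_span_singleton]
      have : res α q - res α q' = n' - n := by linear_combination h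
      rw [this]
      exact dvd_sub h2' h2
    subst e
    simpa using h

open Classical in
theorem count_lower {α : GaussianInt} (hα : α ≠ 0) {a : ℕ} (ha : α.norm ≤ (a : ℤ) ^ 2)
    (N : ℕ) :
    (2 * (N - a) - 1) ^ 2 ≤ ((box 0 N).filter (α ∣ ·)).card * rc α := by
  have := finite_quot hα
  have := Fintype.ofFinite (GaussianInt ⧸ Ideal.span {α})
  unfold rc
  rw [Nat.card_eq_fintype_card, ← Finset.card_univ, ← Finset.card_product, ← card_box 0 (N - a)]
  apply Finset.card_le_card_of_injOn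
    (fun x => (x - res α (Ideal.Quotient.mk _ x), Ideal.Quotient.mk _ x))
  · intro x hx
    simp only [Finset.coe_product, Set.mem_prod, Finset.mem_coe, Finset.mem_filter,
      Finset.mem_univ, and_true] at hx ⊢
    constructor
    · have h3 := res_small hα ha (Ideal.Quotient.mk _ x)
      rw [mem_box] at hx ⊢
      simp only [Zsqrtd.re_sub, Zsqrtd.im_sub, abs_lt, Zsqrtd.re_zero, Zsqrtd.im_zero, sub_zero] at *
      obtain ⟨⟨h4, h5⟩, h6, h7⟩ := hx
      obtain ⟨⟨h8, h9⟩, h10, h11⟩ := h3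
      refine ⟨⟨?_, ?_⟩, ?_, ?_⟩ <;> omega
    · rw [← Ideal.mem_span_singleton, ← Ideal.Quotient.eq, mk_res]
  · intro x hx y hy h
    simp only [Prod.mk.injEq] at h
    rw [h.2] at h
    exact sub_left_injective h.1

theorem rc_lower {α : GaussianInt} (hα : α ≠ 0) : α.norm ≤ 9 * (rc α : ℤ) := by
  have hpos := GaussianInt.norm_pos.mpr hα
  set t : ℕ := Nat.sqrt (α.norm.natAbs / 9) with ht
  have h1 : t * t ≤ α.norm.natAbs / 9 := Nat.sqrt_le _
  have h2 : α.norm.natAbs / 9 < (t + 1) * (t + 1) := Nat.lt_succ_sqrt _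
  have h3 : ((α.norm.natAbs : ℕ) : ℤ) = α.norm := GaussianInt.abs_natCast_norm α
  have h4 : 9 * ((t : ℤ) * t) ≤ α.norm := by
    rw [← h3]; norm_cast; omega
  have h5 : α.norm < 9 * (((t : ℤ) + 1) * (t + 1)) := by
    rw [← h3]; norm_cast; omega
  have key : (2 * (t + 1) - 1) ^ 2 ≤ rc α := by
    have := finite_quot hα
    have := Fintype.ofFinite (GaussianInt ⧸ Ideal.span {α})
    unfold rc
    rw [Nat.card_eq_fintype_card, ← Finset.card_univ, ← card_box 0 (t + 1)]
    apply Finset.card_le_card_of_injOn (fun x => Ideal.Quotient.mk _ x)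
    · intro x _; simp
    · intro x hx y hy h
      simp only [Ideal.Quotient.eq, Ideal.mem_span_singleton] at h
      obtain ⟨k, hk⟩ := h
      by_contra hne
      have hk0 : k ≠ 0 := by
        rintro rfl
        apply hne
        rw [mul_zero] at hk
        exact sub_eq_zero.mp hk
      have hk1 : 1 ≤ k.norm := GaussianInt.norm_pos.mpr hk0
      have h6 : (x - y).norm = α.norm * k.norm := by rw [hk, Zsqrtd.norm_mul]
      rw [Finset.mem_coe, mem_box] at hx hy
      simp only [Zsqrtd.re_zero, Zsqrtd.im_zero, sub_zero, abs_lt, Nat.cast_add, Nat.cast_one] at hx hy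
      have h7 : (x - y).norm ≤ 8 * ((t : ℤ) * t) := by
        rw [Zsqrtd.norm_def]
        simp only [Zsqrtd.re_sub, Zsqrtd.im_sub]
        have e1 : |x.re - y.re| ≤ 2 * t := by rw [abs_le]; constructor <;> linarith [hx.1.1, hx.1.2, hy.1.1, hy.1.2]
        have e2 : |x.im - y.im| ≤ 2 * t := by rw [abs_le]; constructor <;> linarith [hx.2.1, hx.2.2, hy.2.1, hy.2.2]
        have e3 := abs_mul_abs_self (x.re - y.re)
        have e4 := abs_mul_abs_self (x.im - y.im)
        have e5 := abs_nonneg (x.re - y.re)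
        have e6 := abs_nonneg (x.im - y.im)
        nlinarith
      nlinarith
  have key' : (2 * ((t : ℤ) + 1) - 1) ^ 2 ≤ rc α := by
    have : (((2 * (t + 1) - 1) ^ 2 : ℕ) : ℤ) ≤ rc α := by exact_mod_cast key
    rw [Nat.cast_pow, Nat.cast_sub (by omega)] at this
    push_cast at this
    exact this
  nlinarith

noncomputable local instance : StrongNormalizationMonoid GaussianInt :=
  UniqueFactorizationMonoid.strongNormalizationMonoid

open Classical in
/-- normalized primes of norm at most `T` -/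
noncomputable def S (T : ℕ) : Finset GaussianInt :=
  (box 0 (T + 1)).filter fun x => Prime x ∧ normalize x = x ∧ x.norm ≤ T

theorem mem_S {T : ℕ} {x : GaussianInt} :
    x ∈ S T ↔ Prime x ∧ normalize x = x ∧ x.norm ≤ T := by
  unfold S
  simp only [Finset.mem_filter, mem_box, and_iff_right_iff_imp]
  rintro ⟨-, -, h⟩
  rw [Zsqrtd.norm_def] at h
  simp only [Zsqrtd.re_zero, Zsqrtd.im_zero, sub_zero, abs_lt]
  push_cast
  refine ⟨⟨?_, ?_⟩, ?_, ?_⟩ <;> nlinarith [sq_nonneg x.re, sq_nonneg x.im]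

theorem norm_prime_ge_two {x : GaussianInt} (hx : Prime x) : 2 ≤ x.norm := by
  have h1 := GaussianInt.norm_pos.mpr hx.ne_zero
  have h2 : x.norm ≠ 1 := by
    intro h
    rw [Zsqrtd.norm_eq_one_iff' (by norm_num)] at h
    exact hx.not_isUnit h
  omega

theorem norm_multiset_prod (s : Multiset GaussianInt) :
    s.prod.norm = (s.map Zsqrtd.norm).prod := by
  induction s using Multiset.induction_on with
  | empty => simp
  | cons a s ih => simp [Zsqrtd.norm_mul, ih]

theorem prod_norm_normalizedFactors {n : GaussianInt} (hn : n ≠ 0) :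
    ((normalizedFactors n).map Zsqrtd.norm).prod = n.norm := by
  rw [← norm_multiset_prod]
  exact Zsqrtd.norm_eq_of_associated (by norm_num) (prod_normalizedFactors hn)

theorem card_normalizedFactors_natPrime {p : ℕ} (hp : p.Prime) :
    Multiset.card (normalizedFactors (p : GaussianInt)) ≤ 2 := by
  have hp0 : (p : GaussianInt) ≠ 0 := by exact_mod_cast hp.ne_zero
  have h1 := prod_norm_normalizedFactors hp0
  rw [Zsqrtd.norm_natCast] at h1
  have h2 : ∀ x ∈ (normalizedFactors (p : GaussianInt)), (p : ℤ) ≤ x.norm := by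
    intro x hx
    have hxp := prime_of_normalized_factor x hx
    have h2 := norm_prime_ge_two hxp
    have hdvd : x ∣ (p : GaussianInt) := dvd_of_mem_normalizedFactors hx
    have h3 : x.norm ∣ (p : ℤ) * p := by
      obtain ⟨k, hk⟩ := hdvd
      rw [← Zsqrtd.norm_natCast, hk, Zsqrtd.norm_mul]
      exact dvd_mul_right _ _
    have h4 : x.norm.natAbs ∣ p ^ 2 := by
      have := Int.natAbs_dvd_natAbs.mpr h3
      rw [Int.natAbs_mul, Int.natAbs_natCast, ← sq] at this
      exact this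
    rw [Nat.dvd_prime_pow hp] at h4
    obtain ⟨k, hk, hk'⟩ := h4
    have h5 : ((x.norm.natAbs : ℕ) : ℤ) = x.norm := GaussianInt.abs_natCast_norm x
    rw [← h5, hk'] at h2 ⊢
    have : k ≠ 0 := by
      rintro rfl
      simp at h2
    exact_mod_cast Nat.le_self_pow this p
  have h3 : ∀ s : Multiset GaussianInt, (∀ x ∈ s, (p : ℤ) ≤ x.norm) →
      (p : ℤ) ^ (Multiset.card s) ≤ (s.map Zsqrtd.norm).prod := by
    intro s
    induction s using Multiset.induction_on with
    | empty => simp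
    | cons a s ih =>
      intro h
      simp only [Multiset.card_cons, Multiset.map_cons, Multiset.prod_cons, pow_succ]
      rw [mul_comm]
      apply mul_le_mul (h a (by simp)) (ih fun x hx => h x (by simp [hx])) (by positivity)
      exact GaussianInt.norm_nonneg a
  have h4 := h3 _ h2
  rw [h1] at h4
  by_contra hcon
  push Not at hcon
  have h5 : (p : ℤ) ^ 3 ≤ (p : ℤ) ^ (Multiset.card (normalizedFactors (p : GaussianInt))) := by
    apply pow_le_pow_right₀ _ hcon
    exact_mod_cast hp.one_lt.le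
  have h6 : (2 : ℤ) ≤ p := by exact_mod_cast hp.two_le
  nlinarith

theorem exists_nat_prime {x : GaussianInt} (hx : Prime x) :
    ∃ p : ℕ, p.Prime ∧ (p : ℤ) ≤ x.norm ∧ x ∣ (p : GaussianInt) := by
  have h1 := norm_prime_ge_two hx
  have h5 : ((x.norm.natAbs : ℕ) : ℤ) = x.norm := GaussianInt.abs_natCast_norm x
  have h2 : x ∣ ((x.norm.natAbs : ℕ) : GaussianInt) := by
    refine ⟨star x, ?_⟩
    rw [← Zsqrtd.norm_eq_mul_conj]
    rw [← h5]
    simp
  have hne : x.norm.natAbs ≠ 0 := by omega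
  rw [← Nat.prod_primeFactorsList hne] at h2
  push_cast at h2
  rw [hx.dvd_prod_iff] at h2
  obtain ⟨q, hq, hxq⟩ := h2
  rw [List.mem_map] at hq
  obtain ⟨p, hp, rfl⟩ := hq
  rw [Nat.mem_primeFactorsList hne] at hp
  refine ⟨p, hp.1, ?_, hxq⟩
  rw [← h5]
  exact_mod_cast Nat.le_of_dvd (by omega) hp.2

open Classical in
theorem card_S (T : ℕ) : (S T).card ≤ 2 * Nat.primeCounting T := by
  have h : S T ⊆ (Nat.primesLE T).biUnion fun p => (normalizedFactors (p : GaussianInt)).toFinset := by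
    intro x hx
    rw [mem_S] at hx
    obtain ⟨h1, h2, h3⟩ := hx
    obtain ⟨p, hp, hp1, hp2⟩ := exists_nat_prime h1
    rw [Finset.mem_biUnion]
    refine ⟨p, ?_, ?_⟩
    · rw [Nat.mem_primesLE]
      refine ⟨?_, hp⟩
      exact_mod_cast hp1.trans h3
    · rw [Multiset.mem_toFinset, mem_normalizedFactors_iff' (by exact_mod_cast hp.ne_zero)]
      exact ⟨h1.irreducible, h2, hp2⟩
  calc (S T).card ≤ _ := Finset.card_le_card h
    _ ≤ (Nat.primesLE T).card * 2 := by
      apply Finset.card_biUnion_le_card_mul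
      intro p hp
      rw [Nat.mem_primesLE] at hp
      exact (Multiset.toFinset_card_le _).trans (card_normalizedFactors_natPrime hp.2)
    _ = 2 * Nat.primeCounting T := by
      rw [Nat.primesLE_card_eq_primeCounting, mul_comm]

/-- logarithm of the norm -/
noncomputable def Lg (x : GaussianInt) : ℝ := Real.log (x.norm : ℝ)

theorem one_le_norm {x : GaussianInt} (hx : x ≠ 0) : (1 : ℝ) ≤ (x.norm : ℝ) := by
  have := GaussianInt.norm_pos.mpr hx
  exact_mod_cast this

theorem Lg_nonneg {x : GaussianInt} (hx : x ≠ 0) : 0 ≤ Lg x :=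
  Real.log_nonneg (one_le_norm hx)

theorem Lg_multiset_prod (s : Multiset GaussianInt) (hs : ∀ x ∈ s, x ≠ 0) :
    Lg s.prod = (s.map Lg).sum := by
  induction s using Multiset.induction_on with
  | empty => simp [Lg]
  | cons a s ih =>
    have h1 : a ≠ 0 := hs a (by simp)
    have h2 : ∀ x ∈ s, x ≠ 0 := fun x hx => hs x (by simp [hx])
    have h3 : s.prod ≠ 0 := by
      intro h
      rw [Multiset.prod_eq_zero_iff] at h
      exact h2 0 h rfl
    rw [Multiset.prod_cons, Multiset.map_cons, Multiset.sum_cons, ← ih h2]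
    unfold Lg
    rw [Zsqrtd.norm_mul, Int.cast_mul, Real.log_mul]
    · have := one_le_norm h1; linarith
    · have := one_le_norm h3; linarith

open Classical in
theorem Lg_eq {n : GaussianInt} (hn : n ≠ 0) :
    Lg n = ∑ x ∈ (normalizedFactors n).toFinset, ((normalizedFactors n).count x : ℝ) * Lg x := by
  have h1 : Lg n = Lg (normalizedFactors n).prod := by
    unfold Lg
    rw [Zsqrtd.norm_eq_of_associated (by norm_num) (prod_normalizedFactors hn)]
  rw [h1, Lg_multiset_prod]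
  · rw [Finset.sum_multiset_map_count]
    simp
  · intro x hx
    exact ne_zero_of_mem_normalizedFactors hx

open Classical in
theorem Lg_ge {n : GaussianInt} (hn : n ≠ 0) (T : ℕ) :
    ∑ x ∈ S T, ((normalizedFactors n).count x : ℝ) * Lg x ≤ Lg n := by
  rw [Lg_eq hn]
  have h1 : ∑ x ∈ S T, ((normalizedFactors n).count x : ℝ) * Lg x =
      ∑ x ∈ (S T) ∩ (normalizedFactors n).toFinset, ((normalizedFactors n).count x : ℝ) * Lg x := by
    symm
    apply Finset.sum_subset Finset.inter_subset_left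
    intro x hx hx'
    have : x ∉ normalizedFactors n := by
      intro h
      exact hx' (Finset.mem_inter.mpr ⟨hx, Multiset.mem_toFinset.mpr h⟩)
    rw [Multiset.count_eq_zero_of_notMem this]
    simp
  rw [h1]
  apply Finset.sum_le_sum_of_subset_of_nonneg Finset.inter_subset_right
  intro x hx _
  have : x ≠ 0 := ne_zero_of_mem_normalizedFactors (Multiset.mem_toFinset.mp hx)
  have := Lg_nonneg this
  positivity

open Classical in
theorem Lg_le {n : GaussianInt} (hn : n ≠ 0) (T : ℕ)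
    (h : ∀ x : GaussianInt, Prime x → x ∣ n → x.norm ≤ T) :
    Lg n ≤ ∑ x ∈ S T, ((normalizedFactors n).count x : ℝ) * Lg x := by
  rw [Lg_eq hn]
  apply Finset.sum_le_sum_of_subset_of_nonneg
  · intro x hx
    rw [Multiset.mem_toFinset] at hx
    rw [mem_S]
    have hp := prime_of_normalized_factor x hx
    exact ⟨hp, normalize_normalized_factor x hx, h x hp (dvd_of_mem_normalizedFactors hx)⟩
  · intro x hx _
    have : x ≠ 0 := (mem_S.mp hx).1.ne_zero
    have := Lg_nonneg this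
    positivity

open Classical in
theorem pow_dvd_iff {n x : GaussianInt} (hn : n ≠ 0) (hx : Prime x) (hx' : normalize x = x) (j : ℕ) :
    x ^ j ∣ n ↔ j ≤ (normalizedFactors n).count x := by
  rw [pow_dvd_iff_le_emultiplicity, emultiplicity_eq_count_normalizedFactors hx.irreducible hn, hx']
  exact_mod_cast Iff.rfl

open Classical in
theorem count_eq {n x : GaussianInt} (hn : n ≠ 0) (hx : Prime x) (hx' : normalize x = x) (J : ℕ) :
    ((Finset.Icc 1 J).filter fun j => x ^ j ∣ n).card = min J ((normalizedFactors n).count x) := by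
  have : ((Finset.Icc 1 J).filter fun j => x ^ j ∣ n) =
      Finset.Icc 1 (min J ((normalizedFactors n).count x)) := by
    ext j
    simp only [Finset.mem_filter, Finset.mem_Icc, pow_dvd_iff hn hx hx', le_min_iff]
    tauto
  rw [this]
  simp

open Classical in
/-- number of multiples of `α` in `A` -/
noncomputable def cnt (A : Finset GaussianInt) (α : GaussianInt) : ℕ := (A.filter (α ∣ ·)).card

open Classical in
theorem sum_cnt (A : Finset GaussianInt) (x : GaussianInt) (J : ℕ) :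
    ∑ j ∈ Finset.Icc 1 J, cnt A (x ^ j) = ∑ n ∈ A, ((Finset.Icc 1 J).filter fun j => x ^ j ∣ n).card := by
  unfold cnt
  simp only [Finset.card_filter]
  rw [Finset.sum_comm]

open Classical in
theorem cnt_le {α : GaussianInt} (hα : α ≠ 0) (c : GaussianInt) (N : ℕ) :
    (cnt (box c N) α : ℝ) ≤ cnt ((box 0 N).erase 0) α + 577 + 288 * N * (Real.sqrt α.norm)⁻¹ := by
  set r := Real.sqrt (α.norm : ℝ) with hr
  have hn1 := one_le_norm hα
  have hr1 : 1 ≤ r := by rw [hr]; exact Real.one_le_sqrt.mpr hn1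
  have hr2 : r ^ 2 = α.norm := Real.sq_sqrt (by linarith)
  have h5 : ((α.norm.natAbs : ℕ) : ℤ) = α.norm := GaussianInt.abs_natCast_norm α
  have h5' : ((α.norm.natAbs : ℕ) : ℝ) = (α.norm : ℝ) := GaussianInt.natCast_natAbs_norm α
  set a : ℕ := Nat.sqrt α.norm.natAbs + 1 with ha
  have ha1 : α.norm ≤ (a : ℤ) ^ 2 := by
    have : α.norm.natAbs < a * a := Nat.lt_succ_sqrt _
    rw [← h5]
    have h : α.norm.natAbs ≤ a ^ 2 := by rw [sq]; exact this.le
    exact_mod_cast h
  have ha2 : (a : ℝ) ≤ 2 * r := by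
    have h1 : Nat.sqrt α.norm.natAbs * Nat.sqrt α.norm.natAbs ≤ α.norm.natAbs := Nat.sqrt_le _
    have h2 : ((Nat.sqrt α.norm.natAbs : ℕ) : ℝ) ≤ r := by
      rw [hr]
      apply Real.le_sqrt_of_sq_le
      rw [← h5', sq]
      exact_mod_cast h1
    rw [ha]; push_cast; linarith
  have hu := count_upper hα ha1 c N
  have hl := count_lower hα ha1 N
  have hrc := rc_lower hα
  have hrc' : r ^ 2 ≤ 9 * (rc α : ℝ) := by rw [hr2]; exact_mod_cast hrc
  have hrc0 : (0 : ℝ) < rc α := by exact_mod_cast rc_pos hα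
  have herase : (cnt (box 0 N) α : ℝ) ≤ cnt ((box 0 N).erase 0) α + 1 := by
    unfold cnt
    rw [Finset.filter_erase]
    have := Finset.pred_card_le_card_erase (s := (box 0 N).filter (α ∣ ·)) (a := 0)
    have h : ((box 0 N).filter (α ∣ ·)).card ≤ (((box 0 N).filter (α ∣ ·)).erase 0).card + 1 := by omega
    exact_mod_cast h
  have hu' : (cnt (box c N) α : ℝ) * rc α ≤ (2 * ((N : ℝ) + a) - 1) ^ 2 := by
    have : ((cnt (box c N) α * rc α : ℕ) : ℝ) ≤ (((2 * (N + a) - 1) ^ 2 : ℕ) : ℝ) := by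
      exact_mod_cast hu
    rw [Nat.cast_mul, Nat.cast_pow, Nat.cast_sub (by omega)] at this
    push_cast at this
    exact this
  by_cases hNa : N ≤ a
  · have hNa' : (N : ℝ) ≤ a := by exact_mod_cast hNa
    have h1 : (cnt (box c N) α : ℝ) * rc α ≤ 576 * rc α := by
      have hN0 : (0 : ℝ) ≤ N := by positivity
      have ha0 : (1 : ℝ) ≤ a := by rw [ha]; push_cast; linarith [Nat.cast_nonneg (α := ℝ) (Nat.sqrt α.norm.natAbs)]
      calc (cnt (box c N) α : ℝ) * rc α ≤ (2 * ((N : ℝ) + a) - 1) ^ 2 := hu'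
        _ ≤ (4 * (a : ℝ)) ^ 2 := by
          apply pow_le_pow_left₀ <;> linarith
        _ ≤ (8 * r) ^ 2 := by
          apply pow_le_pow_left₀ <;> linarith
        _ = 64 * r ^ 2 := by ring
        _ ≤ 576 * rc α := by linarith
    have h2 : (cnt (box c N) α : ℝ) ≤ 576 := le_of_mul_le_mul_right h1 hrc0
    have h3 : (0 : ℝ) ≤ cnt ((box 0 N).erase 0) α := by positivity
    have h4 : (0 : ℝ) ≤ 288 * N * r⁻¹ := by positivity
    linarith
  · push Not at hNa
    have hl' : (2 * ((N : ℝ) - a) - 1) ^ 2 ≤ (cnt (box 0 N) α : ℝ) * rc α := by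
      have : (((2 * (N - a) - 1) ^ 2 : ℕ) : ℝ) ≤ ((cnt (box 0 N) α * rc α : ℕ) : ℝ) := by
        exact_mod_cast hl
      rw [Nat.cast_mul, Nat.cast_pow, Nat.cast_sub (by omega), Nat.cast_mul, Nat.cast_sub (by omega)] at this
      push_cast at this
      exact this
    have h1 : ((cnt (box c N) α : ℝ) - cnt (box 0 N) α) * rc α ≤ (288 * N * r⁻¹) * rc α := by
      have e1 : ((cnt (box c N) α : ℝ) - cnt (box 0 N) α) * rc α ≤ 16 * a * N := by
        have : (0 : ℝ) ≤ a := by positivity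
        nlinarith
      have e2 : 16 * (a : ℝ) * N ≤ 32 * r * N := by
        have : (0 : ℝ) ≤ N := by positivity
        nlinarith
      have e3 : 32 * r * N ≤ (288 * N * r⁻¹) * rc α := by
        have h0 : (0 : ℝ) ≤ 32 * N * r⁻¹ := by positivity
        have := mul_le_mul_of_nonneg_left hrc' h0
        have e4 : 32 * N * r⁻¹ * r ^ 2 = 32 * r * N := by
          field_simp
        rw [e4] at this
        linarith
      linarith
    have h2 := le_of_mul_le_mul_right h1 hrc0
    linarith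

theorem norm_pow' (x : GaussianInt) (j : ℕ) : (x ^ j).norm = x.norm ^ j :=
  map_pow (Zsqrtd.normMonoidHom : GaussianInt →* ℤ) x j

theorem sqrt_norm_pow (x : GaussianInt) (j : ℕ) :
    Real.sqrt ((x ^ j).norm : ℝ) = Real.sqrt (x.norm : ℝ) ^ j := by
  rw [norm_pow']
  push_cast
  have h0 : (0 : ℝ) ≤ x.norm := by exact_mod_cast GaussianInt.norm_nonneg x
  rw [Real.sqrt_eq_iff_mul_self_eq (by positivity) (by positivity), ← mul_pow, Real.mul_self_sqrt h0]

theorem sqrt_norm_ge_of_notMem_box {x : GaussianInt} {t : ℕ} (hx : x ∉ box 0 t) :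
    (t : ℝ) ≤ Real.sqrt (x.norm : ℝ) := by
  apply Real.le_sqrt_of_sq_le
  rw [mem_box] at hx
  simp only [Zsqrtd.re_zero, Zsqrtd.im_zero, sub_zero, not_and_or, not_lt] at hx
  have : (t : ℤ) ^ 2 ≤ x.norm := by
    rw [Zsqrtd.norm_def]
    rcases hx with h | h
    · have := pow_le_pow_left₀ (by positivity) h 2
      rw [sq_abs] at this
      nlinarith [mul_self_nonneg x.im]
    · have := pow_le_pow_left₀ (by positivity) h 2
      rw [sq_abs] at this
      nlinarith [mul_self_nonneg x.re]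
  exact_mod_cast this

theorem box_mono (c : GaussianInt) {N M : ℕ} (h : N ≤ M) : box c N ⊆ box c M := by
  intro x hx
  rw [mem_box] at *
  have : (N : ℤ) ≤ M := by exact_mod_cast h
  exact ⟨by linarith [hx.1], by linarith [hx.2]⟩

open Classical in
theorem inv_sum_box (t : ℕ) :
    ∑ x ∈ (box 0 t).erase 0, (Real.sqrt (x.norm : ℝ))⁻¹ ≤ 8 * t := by
  induction t with
  | zero =>
    have : box 0 0 = ∅ := by
      rw [← Finset.card_eq_zero, card_box]
      rfl
    rw [this]
    simp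
  | succ t ih =>
    rcases Nat.eq_zero_or_pos t with h0 | h0
    · subst h0
      have : (box 0 (0 + 1)).erase 0 = ∅ := by
        rw [Finset.eq_empty_iff_forall_notMem]
        intro x hx
        rw [Finset.mem_erase, mem_box] at hx
        simp only [Zsqrtd.re_zero, Zsqrtd.im_zero, sub_zero, abs_lt] at hx
        apply hx.1
        ext
        · simp only [Zsqrtd.re_zero]; omega
        · simp only [Zsqrtd.im_zero]; omega
      rw [this]
      simp
    · have hsub : (box 0 t).erase 0 ⊆ (box 0 (t + 1)).erase 0 :=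
        Finset.erase_subset_erase _ (box_mono 0 (Nat.le_succ t))
      rw [← Finset.sum_sdiff hsub]
      have hcard : (((box 0 (t + 1)).erase 0) \ ((box 0 t).erase 0)).card = 8 * t := by
        rw [Finset.card_sdiff_of_subset hsub, Finset.card_erase_of_mem, Finset.card_erase_of_mem, card_box, card_box]
        · obtain ⟨s, rfl⟩ : ∃ s, t = s + 1 := ⟨t - 1, by omega⟩
          have e1 : (2 * (s + 1 + 1) - 1) = 2 * s + 3 := by omega
          have e2 : (2 * (s + 1) - 1) = 2 * s + 1 := by omega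
          rw [e1, e2]
          have : (2 * s + 3) ^ 2 = (2 * s + 1) ^ 2 + 8 * (s + 1) := by ring
          have h1 : 1 ≤ (2 * s + 1) ^ 2 := Nat.one_le_pow _ _ (by omega)
          omega
        · rw [mem_box]; simpa using h0
        · rw [mem_box]; simp only [sub_self, abs_zero]; constructor <;> positivity
      have h1 : ∑ x ∈ ((box 0 (t + 1)).erase 0) \ ((box 0 t).erase 0), (Real.sqrt (x.norm : ℝ))⁻¹
          ≤ (((box 0 (t + 1)).erase 0) \ ((box 0 t).erase 0)).card • ((t : ℝ)⁻¹) := by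
        apply Finset.sum_le_card_nsmul
        intro x hx
        rw [Finset.mem_sdiff, Finset.mem_erase, Finset.mem_erase] at hx
        have : x ∉ box 0 t := fun h => hx.2 ⟨hx.1.1, h⟩
        have := sqrt_norm_ge_of_notMem_box this
        have ht : (0 : ℝ) < t := by exact_mod_cast h0
        exact inv_anti₀ ht this
      rw [hcard] at h1
      have h2 : (8 * t) • ((t : ℝ)⁻¹) = 8 := by
        have ht : (t : ℝ) ≠ 0 := by exact_mod_cast h0.ne'
        rw [nsmul_eq_mul]; push_cast; field_simp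
      rw [h2] at h1
      push_cast
      linarith

open Classical in
theorem inv_sum (A : Finset GaussianInt) (hA : 0 ∉ A) {t : ℕ} (ht : 0 < t) :
    ∑ x ∈ A, (Real.sqrt (x.norm : ℝ))⁻¹ ≤ 8 * t + A.card / t := by
  have ht' : (0 : ℝ) < t := by exact_mod_cast ht
  rw [← Finset.sum_filter_add_sum_filter_not A (fun x => x ∈ box 0 t)]
  apply add_le_add
  · refine le_trans ?_ (inv_sum_box t)
    apply Finset.sum_le_sum_of_subset_of_nonneg
    · intro x hx
      rw [Finset.mem_filter] at hx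
      rw [Finset.mem_erase]
      exact ⟨fun h => hA (h ▸ hx.1), hx.2⟩
    · intro x _ _; positivity
  · calc ∑ x ∈ A.filter (fun x => x ∉ box 0 t), (Real.sqrt (x.norm : ℝ))⁻¹
        ≤ (A.filter (fun x => x ∉ box 0 t)).card • ((t : ℝ)⁻¹) := by
          apply Finset.sum_le_card_nsmul
          intro x hx
          rw [Finset.mem_filter] at hx
          exact inv_anti₀ ht' (sqrt_norm_ge_of_notMem_box hx.2)
      _ ≤ A.card / t := by
          rw [nsmul_eq_mul, div_eq_mul_inv]
          have : ((A.filter (fun x => x ∉ box 0 t)).card : ℝ) ≤ A.card := by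
            exact_mod_cast Finset.card_filter_le _ _
          gcongr

theorem geom_bound {r : ℝ} (hr : 4 / 3 ≤ r) (J : ℕ) :
    ∑ j ∈ Finset.Icc 1 J, (r ^ j)⁻¹ ≤ 4 * r⁻¹ := by
  have h0 : 0 < r := by linarith
  have hq : r⁻¹ ≤ 3 / 4 := by
    rw [inv_le_comm₀ h0 (by norm_num)]
    linarith
  have hq0 : 0 < r⁻¹ := by positivity
  have key : ∀ J : ℕ, ∑ j ∈ Finset.Icc 1 J, (r ^ j)⁻¹ ≤ 4 * r⁻¹ - 4 * (r ^ (J + 1))⁻¹ := by
    intro J
    induction J with
    | zero => simp
    | succ J ih =>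
      rw [Finset.sum_Icc_succ_top (by omega)]
      have h1 : (r ^ (J + 1 + 1))⁻¹ = (r ^ (J + 1))⁻¹ * r⁻¹ := by
        rw [pow_succ r (J + 1), mul_inv]
      rw [h1]
      have h2 : 0 < (r ^ (J + 1))⁻¹ := by positivity
      nlinarith
  have := key J
  have h2 : 0 < (r ^ (J + 1))⁻¹ := by positivity
  linarith

open Classical in
theorem prime_bound {x : GaussianInt} (hx : Prime x) (hx' : normalize x = x) {T V N : ℕ}
    (hT : x.norm ≤ T) (hV1 : 1 ≤ V) (c : GaussianInt) (h0 : 0 ∉ box c N)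
    (hV : ∀ n ∈ box c N, n.norm ≤ V) :
    ∑ n ∈ box c N, ((normalizedFactors n).count x : ℝ) * Lg x ≤
      ∑ m ∈ (box 0 N).erase 0, ((normalizedFactors m).count x : ℝ) * Lg x
      + (577 * Real.log V + 1152 * N * Real.log T * (Real.sqrt (x.norm : ℝ))⁻¹) := by
  have h5 : ((x.norm.natAbs : ℕ) : ℤ) = x.norm := GaussianInt.abs_natCast_norm x
  have hn2 := norm_prime_ge_two hx
  have hb : 1 < x.norm.natAbs := by omega
  set J := Nat.log x.norm.natAbs V with hJ
  set r := Real.sqrt (x.norm : ℝ) with hr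
  have hr1 : 4 / 3 ≤ r := by
    rw [hr]
    apply Real.le_sqrt_of_sq_le
    have : (2 : ℝ) ≤ x.norm := by exact_mod_cast hn2
    linarith
  have hc1 : ∀ n ∈ box c N, (normalizedFactors n).count x ≤ J := by
    intro n hn
    have hn0 : n ≠ 0 := fun h => h0 (h ▸ hn)
    have h1 : x ^ ((normalizedFactors n).count x) ∣ n := (pow_dvd_iff hn0 hx hx' _).mpr le_rfl
    obtain ⟨k, hk⟩ := h1
    have hk0 : k ≠ 0 := by rintro rfl; rw [mul_zero] at hk; exact hn0 hk
    have h2 : n.norm = x.norm ^ ((normalizedFactors n).count x) * k.norm := by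
      conv_lhs => rw [hk]
      rw [Zsqrtd.norm_mul, norm_pow']
    have h3 := GaussianInt.norm_pos.mpr hk0
    have h4 : x.norm ^ ((normalizedFactors n).count x) ≤ V := by
      have := hV n hn
      have h6 : 0 < x.norm ^ ((normalizedFactors n).count x) := by positivity
      nlinarith
    rw [hJ]
    rw [Nat.le_log_iff_pow_le hb (by omega)]
    rw [← h5] at h4
    exact_mod_cast h4
  have e1 : ∑ n ∈ box c N, ((normalizedFactors n).count x : ℝ) =
      ∑ j ∈ Finset.Icc 1 J, (cnt (box c N) (x ^ j) : ℝ) := by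
    rw [← Nat.cast_sum, ← Nat.cast_sum, sum_cnt]
    congr 1
    apply Finset.sum_congr rfl
    intro n hn
    have hn0 : n ≠ 0 := fun h => h0 (h ▸ hn)
    rw [count_eq hn0 hx hx' J, min_eq_right (hc1 n hn)]
  have e2 : ∑ j ∈ Finset.Icc 1 J, (cnt ((box 0 N).erase 0) (x ^ j) : ℝ) ≤
      ∑ m ∈ (box 0 N).erase 0, ((normalizedFactors m).count x : ℝ) := by
    rw [← Nat.cast_sum, ← Nat.cast_sum, sum_cnt]
    rw [Nat.cast_le]
    apply Finset.sum_le_sum
    intro n hn
    have hn0 : n ≠ 0 := (Finset.mem_erase.mp hn).1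
    rw [count_eq hn0 hx hx' J]
    exact min_le_right _ _
  have e3 : ∑ j ∈ Finset.Icc 1 J, (cnt (box c N) (x ^ j) : ℝ) ≤
      ∑ j ∈ Finset.Icc 1 J, (cnt ((box 0 N).erase 0) (x ^ j) : ℝ) + 577 * J + 1152 * N * r⁻¹ := by
    calc ∑ j ∈ Finset.Icc 1 J, (cnt (box c N) (x ^ j) : ℝ)
        ≤ ∑ j ∈ Finset.Icc 1 J, ((cnt ((box 0 N).erase 0) (x ^ j) : ℝ) + 577 + 288 * N * (r ^ j)⁻¹) := by
          apply Finset.sum_le_sum
          intro j _
          rw [hr, ← sqrt_norm_pow]
          exact cnt_le (pow_ne_zero j hx.ne_zero) c N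
      _ = ∑ j ∈ Finset.Icc 1 J, (cnt ((box 0 N).erase 0) (x ^ j) : ℝ) + 577 * J
          + 288 * N * ∑ j ∈ Finset.Icc 1 J, (r ^ j)⁻¹ := by
          rw [Finset.sum_add_distrib, Finset.sum_add_distrib, Finset.mul_sum]
          simp
          ring
      _ ≤ _ := by
          have := geom_bound hr1 J
          have hN : (0 : ℝ) ≤ 288 * N := by positivity
          have := mul_le_mul_of_nonneg_left this hN
          linarith
  have hL0 : 0 ≤ Lg x := Lg_nonneg hx.ne_zero
  have hLT : Lg x ≤ Real.log T := by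
    unfold Lg
    apply Real.log_le_log
    · have := one_le_norm hx.ne_zero; linarith
    · exact_mod_cast hT
  have hJL : J * Lg x ≤ Real.log V := by
    unfold Lg
    rw [← Real.log_pow]
    apply Real.log_le_log
    · have := one_le_norm hx.ne_zero; positivity
    · have : x.norm.natAbs ^ J ≤ V := Nat.pow_log_le_self _ (by omega)
      have h6 : ((x.norm.natAbs : ℕ) : ℝ) ^ J ≤ V := by exact_mod_cast this
      rwa [GaussianInt.natCast_natAbs_norm] at h6
  rw [← Finset.sum_mul, ← Finset.sum_mul, e1]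
  have hr0 : 0 < r⁻¹ := by positivity
  calc (∑ j ∈ Finset.Icc 1 J, (cnt (box c N) (x ^ j) : ℝ)) * Lg x
      ≤ (∑ m ∈ (box 0 N).erase 0, ((normalizedFactors m).count x : ℝ) + 577 * J + 1152 * N * r⁻¹) * Lg x := by
        apply mul_le_mul_of_nonneg_right _ hL0
        linarith
    _ = (∑ m ∈ (box 0 N).erase 0, ((normalizedFactors m).count x : ℝ)) * Lg x
        + (577 * (J * Lg x) + 1152 * N * Lg x * r⁻¹) := by ring
    _ ≤ _ := by
        have : 1152 * (N : ℝ) * Lg x * r⁻¹ ≤ 1152 * N * Real.log T * r⁻¹ := by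
          gcongr
        linarith

open Classical in
/-- elements of the square having a prime factor of norm larger than `T` -/
noncomputable def B (c : GaussianInt) (N T : ℕ) : Finset GaussianInt :=
  (box c N).filter fun n => ∃ x : GaussianInt, Prime x ∧ x ∣ n ∧ (T : ℤ) < x.norm

open Classical in
theorem main_ineq {T V N t : ℕ} (hV1 : 1 ≤ V) (ht : 0 < t) (c : GaussianInt) (h0 : 0 ∉ box c N)
    (hV : ∀ n ∈ box c N, n.norm ≤ V) :
    ∑ n ∈ box c N, Lg n ≤ ∑ m ∈ (box 0 N).erase 0, Lg m + (B c N T).card * Real.log V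
      + 577 * (S T).card * Real.log V
      + 1152 * N * Real.log T * (8 * t + (S T).card / t) := by
  have hne : ∀ n ∈ box c N, n ≠ 0 := fun n hn h => h0 (h ▸ hn)
  have h1 : ∑ n ∈ box c N, Lg n ≤
      ∑ n ∈ box c N, (∑ x ∈ S T, ((normalizedFactors n).count x : ℝ) * Lg x)
        + (B c N T).card * Real.log V := by
    have hB : ((B c N T).card : ℝ) * Real.log V = ∑ n ∈ box c N, if n ∈ B c N T then Real.log V else 0 := by
      rw [← Finset.sum_filter, Finset.sum_const, nsmul_eq_mul]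
      congr 2
      unfold B
      congr 1
      ext n
      simp only [Finset.mem_filter]
      tauto
    rw [hB, ← Finset.sum_add_distrib]
    apply Finset.sum_le_sum
    intro n hn
    have hn0 := hne n hn
    by_cases hnB : n ∈ B c N T
    · rw [if_pos hnB]
      have h2 : 0 ≤ ∑ x ∈ S T, ((normalizedFactors n).count x : ℝ) * Lg x := by
        apply Finset.sum_nonneg
        intro x hx
        have := Lg_nonneg (mem_S.mp hx).1.ne_zero
        positivity
      have h3 : Lg n ≤ Real.log V := by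
        unfold Lg
        apply Real.log_le_log
        · have := one_le_norm hn0; linarith
        · exact_mod_cast hV n hn
      linarith
    · rw [if_neg hnB, add_zero]
      apply Lg_le hn0
      intro x hx hxn
      by_contra hcon
      push Not at hcon
      apply hnB
      unfold B
      rw [Finset.mem_filter]
      exact ⟨hn, x, hx, hxn, hcon⟩
  have h2 : ∑ m ∈ (box 0 N).erase 0, (∑ x ∈ S T, ((normalizedFactors m).count x : ℝ) * Lg x)
      ≤ ∑ m ∈ (box 0 N).erase 0, Lg m := by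
    apply Finset.sum_le_sum
    intro m hm
    exact Lg_ge (Finset.mem_erase.mp hm).1 T
  have h3 : ∑ n ∈ box c N, (∑ x ∈ S T, ((normalizedFactors n).count x : ℝ) * Lg x) ≤
      ∑ m ∈ (box 0 N).erase 0, (∑ x ∈ S T, ((normalizedFactors m).count x : ℝ) * Lg x)
      + 577 * (S T).card * Real.log V
      + 1152 * N * Real.log T * (8 * t + (S T).card / t) := by
    rw [Finset.sum_comm, Finset.sum_comm (s := (box 0 N).erase 0)]
    have h4 : ∑ x ∈ S T, (∑ n ∈ box c N, ((normalizedFactors n).count x : ℝ) * Lg x) ≤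
        ∑ x ∈ S T, (∑ m ∈ (box 0 N).erase 0, ((normalizedFactors m).count x : ℝ) * Lg x
          + (577 * Real.log V + 1152 * N * Real.log T * (Real.sqrt (x.norm : ℝ))⁻¹)) := by
      apply Finset.sum_le_sum
      intro x hx
      rw [mem_S] at hx
      exact prime_bound hx.1 hx.2.1 hx.2.2 hV1 c h0 hV
    rw [Finset.sum_add_distrib, Finset.sum_add_distrib, Finset.sum_const, nsmul_eq_mul,
      ← Finset.mul_sum] at h4
    have h5 : 1152 * (N : ℝ) * Real.log T * ∑ x ∈ S T, (Real.sqrt (x.norm : ℝ))⁻¹ ≤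
        1152 * N * Real.log T * (8 * t + (S T).card / t) := by
      apply mul_le_mul_of_nonneg_left _ (by positivity)
      apply inv_sum _ _ ht
      intro h
      exact (mem_S.mp h).1.ne_zero rfl
    linarith
  linarith

/-- the integer shift -/
noncomputable def X (ε : ℝ) (N : ℕ) : ℤ := ⌊(N : ℝ) ^ (1 + ε)⌋

theorem X_nonneg (ε : ℝ) (N : ℕ) : 0 ≤ X ε N := by
  unfold X
  rw [Int.floor_nonneg]
  positivity

/-- bound for the modulus of the elements of the shifted square -/
noncomputable def W (ε : ℝ) (N : ℕ) : ℕ := (X ε N).toNat + 2 * N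

theorem W_cast (ε : ℝ) (N : ℕ) : ((W ε N : ℕ) : ℤ) = X ε N + 2 * N := by
  unfold W
  push_cast
  rw [Int.toNat_of_nonneg (X_nonneg ε N)]

theorem mem_Phi {ε : ℝ} {N : ℕ} {n : GaussianInt} :
    n ∈ box (X ε N : GaussianInt) N ↔ |n.re - X ε N| < N ∧ |n.im| < N := by
  rw [mem_box]; simp

theorem norm_le_W {ε : ℝ} {N : ℕ} {n : GaussianInt} (hn : n ∈ box (X ε N : GaussianInt) N) :
    n.norm ≤ (W ε N : ℤ) ^ 2 := by
  rw [mem_Phi, abs_lt, abs_lt] at hn
  rw [W_cast, Zsqrtd.norm_def]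
  have hX := X_nonneg ε N
  obtain ⟨⟨h1, h2⟩, h3, h4⟩ := hn
  have h5 : n.re * n.re ≤ (X ε N + N) * (X ε N + N) := by
    rw [← abs_mul_abs_self]
    have : |n.re| ≤ X ε N + N := by rw [abs_le]; constructor <;> linarith
    exact mul_self_le_mul_self (abs_nonneg _) this
  have h6 : n.im * n.im ≤ (N : ℤ) * N := by
    rw [← abs_mul_abs_self]
    have : |n.im| ≤ N := by rw [abs_le]; constructor <;> linarith
    exact mul_self_le_mul_self (abs_nonneg _) this
  have : (0 : ℤ) ≤ N := by positivity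
  nlinarith

theorem card_S_small (C : ℕ) (hC : 1 ≤ C) {δ : ℝ} (hδ : 0 < δ) :
    ∀ᶠ N : ℕ in atTop, ((S (C ^ 2 * N ^ 2)).card : ℝ) ≤ δ * (N : ℝ) ^ 2 := by
  have h1 := Chebyshev.eventually_primeCounting_le (ε := 1) one_pos
  have htend : Tendsto (fun N : ℕ => ((C ^ 2 * N ^ 2 : ℕ) : ℝ)) atTop atTop := by
    apply tendsto_natCast_atTop_atTop.comp
    apply tendsto_atTop_mono (f := fun N : ℕ => N) _ tendsto_id
    intro N
    have : 1 ≤ C ^ 2 := Nat.one_le_pow _ _ hC
    nlinarith [Nat.le_self_pow two_ne_zero N]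
  have h2 := htend.eventually h1
  have h3 := (Real.tendsto_log_atTop.comp htend).eventually_ge_atTop (2 * (Real.log 4 + 1) * C ^ 2 / δ)
  filter_upwards [h2, h3, eventually_gt_atTop 0] with N h2 h3 hN
  rw [Nat.floor_natCast] at h2
  simp only [Function.comp_apply] at h3
  have hlog4 : 0 < Real.log 4 := Real.log_pos (by norm_num)
  have hC0 : (0 : ℝ) < C := by exact_mod_cast hC
  have hN0 : (0 : ℝ) < N := by exact_mod_cast hN
  have hL : 0 < 2 * (Real.log 4 + 1) * C ^ 2 / δ := by positivity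
  have hlog : 0 < Real.log ((C ^ 2 * N ^ 2 : ℕ) : ℝ) := lt_of_lt_of_le hL h3
  have h4 : ((S (C ^ 2 * N ^ 2)).card : ℝ) ≤ 2 * Nat.primeCounting (C ^ 2 * N ^ 2) := by
    exact_mod_cast card_S (C ^ 2 * N ^ 2)
  calc ((S (C ^ 2 * N ^ 2)).card : ℝ) ≤ 2 * Nat.primeCounting (C ^ 2 * N ^ 2) := h4
    _ ≤ 2 * ((Real.log 4 + 1) * ((C ^ 2 * N ^ 2 : ℕ) : ℝ) / Real.log ((C ^ 2 * N ^ 2 : ℕ) : ℝ)) := by
        linarith
    _ ≤ 2 * ((Real.log 4 + 1) * ((C ^ 2 * N ^ 2 : ℕ) : ℝ) / (2 * (Real.log 4 + 1) * C ^ 2 / δ)) := by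
        gcongr
    _ = δ * (N : ℝ) ^ 2 := by
        push_cast
        field_simp

theorem eventually_B {ε : ℝ} (hε : 0 < ε) (C : ℕ) (hC : 1 ≤ C) :
    ∀ᶠ N : ℕ in atTop, ε / (3 + 2 * ε) * (2 * (N : ℝ) - 1) ^ 2 ≤
      ((B (X ε N : GaussianInt) N (C ^ 2 * N ^ 2)).card : ℝ) := by
  set K : ℝ := 577 * (3 + 2 * ε) + 58752 with hK
  have hK0 : 0 < K := by positivity
  set η : ℝ := min 1 (ε / (2 * K)) with hη
  have hη0 : 0 < η := by rw [hη]; positivity
  have hη1 : η ≤ 1 := min_le_left _ _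
  have hη2 : K * η ≤ ε / 2 := by
    have : η ≤ ε / (2 * K) := min_le_right _ _
    calc K * η ≤ K * (ε / (2 * K)) := by gcongr
      _ = ε / 2 := by field_simp
  have hlogt : Tendsto (fun N : ℕ => Real.log (N : ℝ)) atTop atTop :=
    Real.tendsto_log_atTop.comp tendsto_natCast_atTop_atTop
  have E1 := hlogt.eventually_ge_atTop (Real.log 32 / (ε / 2))
  have E4 := card_S_small C hC (δ := η ^ 2) (by positivity)
  have E5 := ((tendsto_rpow_atTop hε).comp tendsto_natCast_atTop_atTop).eventually_ge_atTop (4 : ℝ)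
  have E6 := (tendsto_natCast_atTop_atTop (R := ℝ)).eventually_ge_atTop (1 / η)
  filter_upwards [E1, E4, E5, E6, eventually_ge_atTop 9, eventually_ge_atTop (C ^ 2)] with N E1 E4 E5 E6 E7 E8
  have hN0 : (0 : ℝ) < N := by
    have : 0 < N := by omega
    exact_mod_cast this
  have hN9 : (9 : ℝ) ≤ N := by exact_mod_cast E7
  set ℓ : ℝ := Real.log N with hℓ
  have hℓ0 : 0 < ℓ := Real.log_pos (by linarith)
  rw [div_le_iff₀ (by positivity)] at E1
  simp only [Function.comp_apply] at E5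
  -- the shift
  have hx : (N : ℝ) ^ (1 + ε) = N * (N : ℝ) ^ ε := by
    rw [Real.rpow_add hN0, Real.rpow_one]
  have hx4 : 4 * (N : ℝ) ≤ (N : ℝ) ^ (1 + ε) := by
    rw [hx]; nlinarith
  have hX1 : (X ε N : ℝ) ≤ (N : ℝ) ^ (1 + ε) := Int.floor_le _
  have hX2 : (N : ℝ) ^ (1 + ε) < X ε N + 1 := Int.lt_floor_add_one _
  have hX0 := X_nonneg ε N
  have hX0' : (0 : ℝ) ≤ X ε N := by exact_mod_cast hX0
  have hXN : (N : ℤ) < X ε N := by
    have : (N : ℝ) < X ε N := by linarith
    exact_mod_cast this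
  have h0 : (0 : GaussianInt) ∉ box (X ε N : GaussianInt) N := by
    rw [mem_Phi]
    simp only [Zsqrtd.re_zero, Zsqrtd.im_zero, zero_sub, abs_neg, not_and_or, not_lt]
    left
    rw [abs_of_nonneg hX0]
    exact hXN.le
  have hW1 : 1 ≤ (W ε N) ^ 2 := by
    have : 1 ≤ W ε N := by unfold W; omega
    exact Nat.one_le_pow _ _ this
  set t : ℕ := ⌈η * N⌉₊ with ht
  have hηN : 1 ≤ η * N := by
    rw [div_le_iff₀ hη0] at E6
    linarith
  have ht1 : η * N ≤ t := Nat.le_ceil _
  have ht2 : (t : ℝ) ≤ 2 * (η * N) := by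
    have := Nat.ceil_lt_add_one (a := η * N) (by positivity)
    linarith
  have ht0 : 0 < t := by
    have : (0 : ℝ) < t := by linarith
    exact_mod_cast this
  have key := main_ineq (T := C ^ 2 * N ^ 2) (V := (W ε N) ^ 2) (N := N) (t := t) hW1 ht0
    (X ε N : GaussianInt) h0 (fun n hn => by
      have := norm_le_W hn
      push_cast
      exact this)
  set R : ℝ := ((S (C ^ 2 * N ^ 2)).card : ℝ) with hR
  set b : ℝ := ((B (X ε N : GaussianInt) N (C ^ 2 * N ^ 2)).card : ℝ) with hb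
  -- lower bound of LHS
  have hcard : ((box (X ε N : GaussianInt) N).card : ℝ) = (2 * (N : ℝ) - 1) ^ 2 := by
    rw [card_box, Nat.cast_pow, Nat.cast_sub (by omega)]
    push_cast; ring
  have hcard0 : (((box 0 N).erase 0).card : ℝ) ≤ (2 * (N : ℝ) - 1) ^ 2 := by
    have h1 : ((box 0 N).erase 0).card ≤ (box 0 N).card := Finset.card_erase_le
    have h2 : ((box (0 : GaussianInt) N).card : ℝ) = (2 * (N : ℝ) - 1) ^ 2 := by
      rw [card_box, Nat.cast_pow, Nat.cast_sub (by omega)]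
      push_cast; ring
    rw [← h2]
    exact_mod_cast h1
  have hlow : (2 * (N : ℝ) - 1) ^ 2 * (2 * ((1 + ε) * ℓ - Real.log 4)) ≤
      ∑ n ∈ box (X ε N : GaussianInt) N, Lg n := by
    rw [← hcard, ← nsmul_eq_mul]
    apply Finset.card_nsmul_le_sum
    intro n hn
    rw [mem_Phi, abs_lt] at hn
    have h1 : (N : ℝ) ^ (1 + ε) / 4 ≤ n.re := by
      have : X ε N - N < n.re := by linarith [hn.1.1]
      have : (X ε N : ℝ) - N < n.re := by exact_mod_cast this
      linarith
    have h2 : ((N : ℝ) ^ (1 + ε) / 4) ^ 2 ≤ n.norm := by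
      rw [Zsqrtd.norm_def]
      push_cast
      have : 0 ≤ (N : ℝ) ^ (1 + ε) / 4 := by positivity
      nlinarith [mul_self_nonneg (n.im : ℝ)]
    unfold Lg
    have h3 : 2 * ((1 + ε) * ℓ - Real.log 4) = Real.log (((N : ℝ) ^ (1 + ε) / 4) ^ 2) := by
      rw [Real.log_pow, Real.log_div (by positivity) (by norm_num), Real.log_rpow hN0]
      push_cast; ring
    rw [h3]
    exact Real.log_le_log (by positivity) h2
  have hup : ∑ m ∈ (box 0 N).erase 0, Lg m ≤ (2 * (N : ℝ) - 1) ^ 2 * (Real.log 2 + 2 * ℓ) := by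
    have h1 : ∑ m ∈ (box 0 N).erase 0, Lg m ≤ ((box 0 N).erase 0).card • (Real.log 2 + 2 * ℓ) := by
      apply Finset.sum_le_card_nsmul
      intro m hm
      rw [Finset.mem_erase, mem_box] at hm
      simp only [Zsqrtd.re_zero, Zsqrtd.im_zero, sub_zero] at hm
      have h2 : (m.norm : ℝ) ≤ 2 * (N : ℝ) ^ 2 := by
        have : m.norm ≤ 2 * (N : ℤ) ^ 2 := by
          rw [Zsqrtd.norm_def]
          have e1 := abs_mul_abs_self m.re
          have e2 := abs_mul_abs_self m.im
          nlinarith [abs_nonneg m.re, abs_nonneg m.im, hm.2.1, hm.2.2]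
        exact_mod_cast this
      unfold Lg
      have h3 : Real.log 2 + 2 * ℓ = Real.log (2 * (N : ℝ) ^ 2) := by
        rw [Real.log_mul (by norm_num) (by positivity), Real.log_pow]
        push_cast; ring
      rw [h3]
      apply Real.log_le_log _ h2
      have := one_le_norm hm.1
      linarith
    rw [nsmul_eq_mul] at h1
    have h2 : 0 ≤ Real.log 2 + 2 * ℓ := by
      have := Real.log_pos (one_lt_two)
      positivity
    calc _ ≤ _ := h1
      _ ≤ _ := mul_le_mul_of_nonneg_right hcard0 h2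
  -- logs of V and T
  have hlogV : Real.log (((W ε N) ^ 2 : ℕ) : ℝ) ≤ (3 + 2 * ε) * ℓ := by
    have hW : ((W ε N : ℕ) : ℝ) = X ε N + 2 * N := by
      have := W_cast ε N
      have h' : (((W ε N : ℕ) : ℤ) : ℝ) = ((X ε N + 2 * N : ℤ) : ℝ) := by rw [this]
      push_cast at h'
      exact h'
    have hW2 : ((W ε N : ℕ) : ℝ) ≤ 3 / 2 * (N : ℝ) ^ (1 + ε) := by
      rw [hW]; linarith
    have hWpos : (0 : ℝ) < (W ε N : ℕ) := by
      rw [hW]; linarith
    push_cast
    rw [Real.log_pow]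
    have h1 : Real.log (W ε N : ℕ) ≤ Real.log (3 / 2 * (N : ℝ) ^ (1 + ε)) :=
      Real.log_le_log hWpos hW2
    rw [Real.log_mul (by norm_num) (by positivity), Real.log_rpow hN0] at h1
    have h2 : 2 * Real.log (3 / 2) ≤ ℓ := by
      have : 2 * Real.log (3 / 2) = Real.log ((3 / 2) ^ 2) := by
        rw [Real.log_pow]; push_cast; ring
      rw [this]
      apply Real.log_le_log (by norm_num)
      linarith
    push_cast
    linarith
  have hlogV0 : 0 ≤ Real.log (((W ε N) ^ 2 : ℕ) : ℝ) := Real.log_nonneg (by exact_mod_cast hW1)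
  have hlogT : Real.log ((C ^ 2 * N ^ 2 : ℕ) : ℝ) ≤ 3 * ℓ := by
    have : 3 * ℓ = Real.log ((N : ℝ) ^ 3) := by rw [Real.log_pow]; push_cast; ring
    rw [this]
    apply Real.log_le_log
    · have : 0 < C ^ 2 * N ^ 2 := by positivity
      exact_mod_cast this
    · have : C ^ 2 * N ^ 2 ≤ N ^ 3 := by
        calc C ^ 2 * N ^ 2 ≤ N * N ^ 2 := Nat.mul_le_mul_right _ E8
          _ = N ^ 3 := by ring
      exact_mod_cast this
  have hR0 : 0 ≤ R := by positivity
  have hb0 : 0 ≤ b := by positivity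
  clear_value R b ℓ t
  generalize hlV : Real.log (((W ε N) ^ 2 : ℕ) : ℝ) = lV at key hlogV hlogV0
  have hT0 : 0 ≤ Real.log ((C ^ 2 * N ^ 2 : ℕ) : ℝ) := Real.log_natCast_nonneg _
  generalize hlT : Real.log ((C ^ 2 * N ^ 2 : ℕ) : ℝ) = lT at key hlogT hT0
  have hRt : 8 * (t : ℝ) + R / t ≤ 17 * (η * N) := by
    have h1 : R / t ≤ η * N := by
      rw [div_le_iff₀ (by positivity)]
      calc R ≤ η ^ 2 * (N : ℝ) ^ 2 := E4
        _ = (η * N) * (η * N) := by ring
        _ ≤ η * N * t := by gcongr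
    linarith
  -- error terms
  have err1 : 577 * R * lV ≤ 577 * (3 + 2 * ε) * (η * (N : ℝ) ^ 2 * ℓ) := by
    have h1 : R ≤ η * (N : ℝ) ^ 2 := by
      refine le_trans E4 ?_
      have : η ^ 2 ≤ η := by nlinarith
      gcongr
    calc 577 * R * lV ≤ 577 * (η * (N : ℝ) ^ 2) * ((3 + 2 * ε) * ℓ) := by
          gcongr
      _ = _ := by ring
  have err2 : 1152 * (N : ℝ) * lT * (8 * t + R / t) ≤
      58752 * (η * (N : ℝ) ^ 2 * ℓ) := by
    calc 1152 * (N : ℝ) * lT * (8 * t + R / t)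
        ≤ 1152 * (N : ℝ) * (3 * ℓ) * (17 * (η * N)) := by
          gcongr
      _ = _ := by ring
  have hNA : (N : ℝ) ^ 2 ≤ (2 * (N : ℝ) - 1) ^ 2 := by
    apply pow_le_pow_left₀ <;> linarith
  have err : K * (η * (N : ℝ) ^ 2 * ℓ) ≤ ε / 2 * ((2 * (N : ℝ) - 1) ^ 2 * ℓ) := by
    calc K * (η * (N : ℝ) ^ 2 * ℓ) = (K * η) * ((N : ℝ) ^ 2 * ℓ) := by ring
      _ ≤ ε / 2 * ((2 * (N : ℝ) - 1) ^ 2 * ℓ) := by gcongr
  have hfirst : (2 * (N : ℝ) - 1) ^ 2 * (3 / 2 * ε * ℓ) ≤
      (2 * (N : ℝ) - 1) ^ 2 * (2 * ((1 + ε) * ℓ - Real.log 4)) -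
      (2 * (N : ℝ) - 1) ^ 2 * (Real.log 2 + 2 * ℓ) := by
    rw [← mul_sub]
    apply mul_le_mul_of_nonneg_left _ (by positivity)
    have h32 : Real.log 32 = 2 * Real.log 4 + Real.log 2 := by
      have e1 : (32 : ℝ) = 4 ^ 2 * 2 := by norm_num
      rw [e1, Real.log_mul (by norm_num) (by norm_num), Real.log_pow]
      push_cast; ring
    rw [h32] at E1
    linarith
  have hfin : ε * ((2 * (N : ℝ) - 1) ^ 2 * ℓ) ≤ b * ((3 + 2 * ε) * ℓ) := by
    have h1 : b * lV ≤ b * ((3 + 2 * ε) * ℓ) := by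
      gcongr
    have h2 : K * (η * (N : ℝ) ^ 2 * ℓ) = 577 * (3 + 2 * ε) * (η * (N : ℝ) ^ 2 * ℓ)
        + 58752 * (η * (N : ℝ) ^ 2 * ℓ) := by rw [hK]; ring
    linarith
  have h3 : ε * (2 * (N : ℝ) - 1) ^ 2 ≤ b * (3 + 2 * ε) := by
    have : (ε * (2 * (N : ℝ) - 1) ^ 2) * ℓ ≤ (b * (3 + 2 * ε)) * ℓ := by linarith
    exact le_of_mul_le_mul_right this hℓ0
  rw [div_mul_eq_mul_div, div_le_iff₀ (by positivity)]
  exact h3

theorem cnt_bound {x : GaussianInt} (hx : x ≠ 0) {w M : ℕ} (hw : x.norm ≤ (w : ℤ) ^ 2)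
    (hM : 5 * w + 1 ≤ M) (c : GaussianInt) :
    (cnt (box c M) x : ℝ) ≤ 18 * (2 * (M : ℝ) - 1) ^ 2 / x.norm := by
  have hu := count_upper hx hw c M
  have hrc := rc_lower hx
  have hn := one_le_norm hx
  have hrc' : (x.norm : ℝ) ≤ 9 * (rc x : ℝ) := by exact_mod_cast hrc
  have hu' : (cnt (box c M) x : ℝ) * rc x ≤ (2 * ((M : ℝ) + w) - 1) ^ 2 := by
    have : ((cnt (box c M) x * rc x : ℕ) : ℝ) ≤ (((2 * (M + w) - 1) ^ 2 : ℕ) : ℝ) := by
      exact_mod_cast hu
    rw [Nat.cast_mul, Nat.cast_pow, Nat.cast_sub (by omega)] at this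
    push_cast at this
    exact this
  have hM' : 5 * (w : ℝ) + 1 ≤ M := by exact_mod_cast hM
  have hw0 : (0 : ℝ) ≤ w := by positivity
  have h1 : (2 * ((M : ℝ) + w) - 1) ^ 2 ≤ (7 / 5 * (2 * (M : ℝ) - 1)) ^ 2 := by
    apply pow_le_pow_left₀ <;> linarith
  rw [le_div_iff₀ (by linarith)]
  have h2 : (cnt (box c M) x : ℝ) * x.norm ≤ cnt (box c M) x * (9 * rc x) := by
    gcongr
  nlinarith [sq_nonneg (2 * (M : ℝ) - 1)]

theorem X_mono {ε : ℝ} (hε : 0 < ε) : Monotone (X ε) := by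
  intro a b h
  unfold X
  apply Int.floor_le_floor
  apply Real.rpow_le_rpow (by positivity) (by exact_mod_cast h) (by linarith)

theorem W_mono {ε : ℝ} (hε : 0 < ε) : Monotone (W ε) := by
  intro a b h
  unfold W
  have := X_mono hε h
  omega

theorem le_W (ε : ℝ) (N : ℕ) : N ≤ W ε N := by unfold W; omega

theorem card_Phi {ε : ℝ} {N : ℕ} (hN : 1 ≤ N) :
    ((box (X ε N : GaussianInt) N).card : ℝ) = (2 * (N : ℝ) - 1) ^ 2 := by
  rw [card_box, Nat.cast_pow, Nat.cast_sub (by omega)]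
  push_cast; ring

theorem pos_of_mem_Phi {ε : ℝ} {N : ℕ} (hN : (N : ℤ) ≤ X ε N) {n : GaussianInt}
    (hn : n ∈ box (X ε N : GaussianInt) N) : n ≠ 0 := by
  rintro rfl
  rw [mem_Phi, abs_lt] at hn
  simp only [Zsqrtd.re_zero] at hn
  linarith [hn.1.1]

theorem le_X {ε : ℝ} (hε : 0 < ε) {N : ℕ} (hN : 1 ≤ N) : (N : ℤ) ≤ X ε N := by
  unfold X
  rw [Int.le_floor]
  have h1 : (1 : ℝ) ≤ N := by exact_mod_cast hN
  calc ((N : ℤ) : ℝ) = (N : ℝ) ^ (1 : ℝ) := by simp
    _ ≤ (N : ℝ) ^ (1 + ε) := Real.rpow_le_rpow_of_exponent_le h1 (by linarith)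

open Classical in
theorem main {ε : ℝ} (hε : 0 < ε) : ∃ f : GaussianInt → ℝ,
    (∀ n, f n = 0 ∨ f n = 1) ∧ (∀ m n, f (m * n) = f m * f n) ∧
    ¬ ∃ L : ℝ, Tendsto (fun N : ℕ => (∑ n ∈ box (X ε N : GaussianInt) N, f n) /
      ((box (X ε N : GaussianInt) N).card : ℝ)) atTop (nhds L) := by
  set c : ℝ := ε / (3 + 2 * ε) with hc
  have hc0 : 0 < c := by positivity
  -- the constants
  obtain ⟨C0, hC0⟩ := exists_nat_ge (max 1 (192 / c))
  have hC01 : (1 : ℝ) ≤ C0 := le_trans (le_max_left _ _) hC0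
  have hC02 : 192 / c ≤ C0 := le_trans (le_max_right _ _) hC0
  have hC01' : 1 ≤ C0 := by exact_mod_cast hC01
  have hev : ∀ k : ℕ, ∃ N0 : ℕ, ∀ N ≥ N0, c * (2 * (N : ℝ) - 1) ^ 2 ≤
      ((B (X ε N : GaussianInt) N ((C0 * 2 ^ k) ^ 2 * N ^ 2)).card : ℝ) := by
    intro k
    exact eventually_atTop.mp (eventually_B hε (C0 * 2 ^ k) (Nat.mul_pos hC01' (by positivity)))
  choose K hK using hev
  -- the scales
  let Ns : ℕ → ℕ := fun k => Nat.rec (max (K 0) 1) (fun k N => max (K (k + 1)) (W ε (5 * W ε N + 1))) k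
  have hNs0 : Ns 0 = max (K 0) 1 := rfl
  have hNs1 : ∀ k, Ns (k + 1) = max (K (k + 1)) (W ε (5 * W ε (Ns k) + 1)) := fun k => rfl
  have hNsK : ∀ k, K k ≤ Ns k := by
    intro k
    cases k with
    | zero => rw [hNs0]; exact le_max_left _ _
    | succ k => rw [hNs1]; exact le_max_left _ _
  have hNsW : ∀ k, W ε (5 * W ε (Ns k) + 1) ≤ Ns (k + 1) := by
    intro k; rw [hNs1]; exact le_max_right _ _
  have hNslt : ∀ k, Ns k < Ns (k + 1) := by
    intro k
    have h1 := hNsW k
    have h2 := le_W ε (5 * W ε (Ns k) + 1)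
    have h3 := le_W ε (Ns k)
    omega
  have hNsmono : StrictMono Ns := strictMono_nat_of_lt_succ hNslt
  have hNspos : ∀ k, 1 ≤ Ns k := by
    intro k
    have h1 : Ns 0 ≤ Ns k := hNsmono.monotone (Nat.zero_le k)
    have h2 : 1 ≤ Ns 0 := by rw [hNs0]; exact le_max_right _ _
    omega
  clear_value Ns
  set Bk : ℕ → Finset GaussianInt := fun k =>
    B (X ε (Ns k) : GaussianInt) (Ns k) ((C0 * 2 ^ k) ^ 2 * (Ns k) ^ 2) with hBk
  have hBcard : ∀ k, c * (2 * (Ns k : ℝ) - 1) ^ 2 ≤ ((Bk k).card : ℝ) := fun k => hK k _ (hNsK k)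
  have hBmem : ∀ k, ∀ n ∈ Bk k, n ∈ box (X ε (Ns k) : GaussianInt) (Ns k) ∧
      ∃ x : GaussianInt, Prime x ∧ x ∣ n ∧ (((C0 * 2 ^ k) ^ 2 * (Ns k) ^ 2 : ℕ) : ℤ) < x.norm := by
    intro k n hn
    rw [hBk] at hn
    unfold B at hn
    rw [Finset.mem_filter] at hn
    exact hn
  have hg : ∀ k, ∀ n : GaussianInt, ∃ x : GaussianInt, n ∈ Bk k → Prime x ∧ x ∣ n ∧
      (((C0 * 2 ^ k) ^ 2 * (Ns k) ^ 2 : ℕ) : ℤ) < x.norm := by
    intro k n
    by_cases hn : n ∈ Bk k
    · obtain ⟨x, hx⟩ := (hBmem k n hn).2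
      exact ⟨x, fun _ => hx⟩
    · exact ⟨0, fun h => absurd h hn⟩
  choose g hg using hg
  set P : GaussianInt → Prop := fun x => ∃ k, ∃ n ∈ Bk k, x = g k n with hP
  have hPprime : ∀ x, P x → Prime x := by
    rintro x ⟨k, n, hn, rfl⟩
    exact (hg k n hn).1
  set f : GaussianInt → ℝ := fun n => if ∃ x, P x ∧ x ∣ n then 0 else 1 with hf
  have hf01 : ∀ n, f n = 0 ∨ f n = 1 := by
    intro n
    simp only [hf]
    split_ifs <;> simp
  have hf0 : ∀ n, 0 ≤ f n := by
    intro n; rcases hf01 n with h | h <;> rw [h] <;> norm_num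
  have hf1 : ∀ n, f n ≤ 1 := by
    intro n; rcases hf01 n with h | h <;> rw [h] <;> norm_num
  refine ⟨f, hf01, ?_, ?_⟩
  · intro m n
    have h : (∃ x, P x ∧ x ∣ m * n) ↔ (∃ x, P x ∧ x ∣ m) ∨ (∃ x, P x ∧ x ∣ n) := by
      constructor
      · rintro ⟨x, hx, hd⟩
        rcases (hPprime x hx).dvd_or_dvd hd with h | h
        · exact Or.inl ⟨x, hx, h⟩
        · exact Or.inr ⟨x, hx, h⟩
      · rintro (⟨x, hx, hd⟩ | ⟨x, hx, hd⟩)
        · exact ⟨x, hx, hd.mul_right n⟩
        · exact ⟨x, hx, hd.mul_left m⟩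
    simp only [hf]
    by_cases h1 : ∃ x, P x ∧ x ∣ m
    · rw [if_pos (h.mpr (Or.inl h1)), if_pos h1, zero_mul]
    · by_cases h2 : ∃ x, P x ∧ x ∣ n
      · rw [if_pos (h.mpr (Or.inr h2)), if_pos h2, mul_zero]
      · rw [if_neg (fun h3 => (h.mp h3).elim h1 h2), if_neg h1, if_neg h2, mul_one]
  rintro ⟨L, hL⟩
  set A : ℕ → ℝ := fun N : ℕ => (∑ n ∈ box (X ε N : GaussianInt) N, f n) /
      ((box (X ε N : GaussianInt) N).card : ℝ) with hA
  have hApos : ∀ N : ℕ, 1 ≤ N → (0 : ℝ) < (2 * (N : ℝ) - 1) ^ 2 := by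
    intro N hN
    have : (1 : ℝ) ≤ N := by exact_mod_cast hN
    have : (0 : ℝ) < 2 * (N : ℝ) - 1 := by linarith
    positivity
  -- small averages at the scales `Ns k`
  have hsmall : ∀ k, A (Ns k) ≤ 1 - c := by
    intro k
    simp only [hA]
    rw [card_Phi (hNspos k), div_le_iff₀ (hApos _ (hNspos k))]
    have hsub : Bk k ⊆ box (X ε (Ns k) : GaussianInt) (Ns k) := fun n hn => (hBmem k n hn).1
    rw [← Finset.sum_sdiff hsub]
    have h1 : ∑ n ∈ Bk k, f n = 0 := by
      apply Finset.sum_eq_zero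
      intro n hn
      simp only [hf]
      rw [if_pos]
      exact ⟨g k n, ⟨k, n, hn, rfl⟩, (hg k n hn).2.1⟩
    have h2 : ∑ n ∈ box (X ε (Ns k) : GaussianInt) (Ns k) \ Bk k, f n ≤
        ((box (X ε (Ns k) : GaussianInt) (Ns k) \ Bk k).card : ℝ) := by
      have := Finset.sum_le_card_nsmul (box (X ε (Ns k) : GaussianInt) (Ns k) \ Bk k) f 1
        (fun n _ => hf1 n)
      rwa [nsmul_eq_mul, mul_one] at this
    have h3 : ((box (X ε (Ns k) : GaussianInt) (Ns k) \ Bk k).card : ℝ) =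
        (2 * (Ns k : ℝ) - 1) ^ 2 - (Bk k).card := by
      rw [Finset.card_sdiff_of_subset hsub, Nat.cast_sub (Finset.card_le_card hsub),
        card_Phi (hNspos k)]
    have h4 := hBcard k
    rw [h1]
    linarith
  -- large averages at the intermediate scales
  set Ms : ℕ → ℕ := fun k => 5 * W ε (Ns k) + 1 with hMs
  have hMspos : ∀ k, 1 ≤ Ms k := fun k => by simp only [hMs]; omega
  have hlarge : ∀ k, 1 - c / 2 ≤ A (Ms k) := by
    intro k
    simp only [hA]
    rw [card_Phi (hMspos k), le_div_iff₀ (hApos _ (hMspos k))]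
    set Ph := box (X ε (Ms k) : GaussianInt) (Ms k) with hPh
    set D := Ph.filter fun n => ∃ x, P x ∧ x ∣ n with hD
    have h1 : (Ph.card : ℝ) - D.card ≤ ∑ n ∈ Ph, f n := by
      have hsplit := Finset.sum_filter_add_sum_filter_not Ph (fun n => ∃ x, P x ∧ x ∣ n) f
      have h2 : ∑ n ∈ Ph.filter (fun n => ¬ ∃ x, P x ∧ x ∣ n), f n =
          ((Ph.filter (fun n => ¬ ∃ x, P x ∧ x ∣ n)).card : ℝ) := by
        rw [Finset.card_eq_sum_ones, Nat.cast_sum]
        apply Finset.sum_congr rfl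
        intro n hn
        rw [Finset.mem_filter] at hn
        simp only [hf]
        rw [if_neg hn.2]
        simp
      have h3 : 0 ≤ ∑ n ∈ Ph.filter (fun n => ∃ x, P x ∧ x ∣ n), f n :=
        Finset.sum_nonneg fun n _ => hf0 n
      have h4 := Finset.card_filter_add_card_filter_not (s := Ph) (fun n => ∃ x, P x ∧ x ∣ n)
      have h5 : (D.card : ℝ) + ((Ph.filter (fun n => ¬ ∃ x, P x ∧ x ∣ n)).card : ℝ) = Ph.card := by
        exact_mod_cast h4
      linarith
    have h2 : (D.card : ℝ) ≤ c / 2 * (2 * (Ms k : ℝ) - 1) ^ 2 := by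
      have hDsub : D ⊆ (Finset.range (k + 1)).biUnion fun j => (Bk j).biUnion fun m =>
          Ph.filter (g j m ∣ ·) := by
        intro n hn
        rw [hD, Finset.mem_filter] at hn
        obtain ⟨hn1, x, ⟨j, m, hm, rfl⟩, hd⟩ := hn
        simp only [Finset.mem_biUnion, Finset.mem_range, Finset.mem_filter]
        refine ⟨j, ?_, m, hm, hn1, hd⟩
        by_contra hjk
        push Not at hjk
        have hn0 : n ≠ 0 := pos_of_mem_Phi (le_X hε (hMspos k)) hn1
        have e1 := (hg j m hm).2.2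
        have e2 : n.norm ≤ (W ε (Ms k) : ℤ) ^ 2 := norm_le_W hn1
        have e3 : (g j m).norm ≤ n.norm := by
          obtain ⟨y, hy⟩ := hd
          have hy0 : y ≠ 0 := by rintro rfl; rw [mul_zero] at hy; exact hn0 hy
          rw [hy, Zsqrtd.norm_mul]
          have := GaussianInt.norm_pos.mpr hy0
          have := GaussianInt.norm_nonneg (g j m)
          nlinarith
        have e4 : W ε (Ms k) ≤ Ns j := (hNsW k).trans (hNsmono.monotone hjk)
        have e5 : (W ε (Ms k)) ^ 2 ≤ (C0 * 2 ^ j) ^ 2 * (Ns j) ^ 2 := by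
          have : 1 ≤ (C0 * 2 ^ j) ^ 2 := Nat.one_le_pow _ _ (Nat.mul_pos hC01' (by positivity))
          calc (W ε (Ms k)) ^ 2 ≤ (Ns j) ^ 2 := Nat.pow_le_pow_left e4 2
            _ = 1 * (Ns j) ^ 2 := by ring
            _ ≤ _ := Nat.mul_le_mul_right _ this
        have e6 : ((W ε (Ms k) : ℕ) : ℤ) ^ 2 ≤ (((C0 * 2 ^ j) ^ 2 * (Ns j) ^ 2 : ℕ) : ℤ) := by
          exact_mod_cast e5
        linarith
      have h3 : D.card ≤ ∑ j ∈ Finset.range (k + 1), ∑ m ∈ Bk j, cnt Ph (g j m) := by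
        refine (Finset.card_le_card hDsub).trans ?_
        refine Finset.card_biUnion_le.trans ?_
        apply Finset.sum_le_sum
        intro j _
        exact Finset.card_biUnion_le
      have h4 : ∀ j ∈ Finset.range (k + 1), (∑ m ∈ Bk j, (cnt Ph (g j m) : ℝ)) ≤
          72 * (2 * (Ms k : ℝ) - 1) ^ 2 / (C0 : ℝ) ^ 2 * (1 / 4 : ℝ) ^ j := by
        intro j hj
        rw [Finset.mem_range, Nat.lt_succ_iff] at hj
        have hNj : (1 : ℝ) ≤ Ns j := by exact_mod_cast hNspos j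
        have hT0 : (0 : ℝ) < (C0 * 2 ^ j : ℝ) ^ 2 * (Ns j : ℝ) ^ 2 := by positivity
        have h5 : ∀ m ∈ Bk j, (cnt Ph (g j m) : ℝ) ≤
            18 * (2 * (Ms k : ℝ) - 1) ^ 2 / ((C0 * 2 ^ j : ℝ) ^ 2 * (Ns j : ℝ) ^ 2) := by
          intro m hm
          have hgm := hg j m hm
          have hm0 : m ≠ 0 := pos_of_mem_Phi (le_X hε (hNspos j)) (hBmem j m hm).1
          have e1 : (g j m).norm ≤ (W ε (Ns k) : ℤ) ^ 2 := by
            have e2 : (g j m).norm ≤ m.norm := by
              obtain ⟨y, hy⟩ := hgm.2.1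
              have hy0 : y ≠ 0 := by rintro rfl; rw [mul_zero] at hy; exact hm0 hy
              conv_rhs => rw [hy]
              rw [Zsqrtd.norm_mul]
              have := GaussianInt.norm_pos.mpr hy0
              have := GaussianInt.norm_nonneg (g j m)
              nlinarith
            have e3 : m.norm ≤ (W ε (Ns j) : ℤ) ^ 2 := norm_le_W (hBmem j m hm).1
            have e4 : W ε (Ns j) ≤ W ε (Ns k) := W_mono hε (hNsmono.monotone hj)
            have e5 : ((W ε (Ns j) : ℕ) : ℤ) ^ 2 ≤ ((W ε (Ns k) : ℕ) : ℤ) ^ 2 := by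
              have : (W ε (Ns j)) ^ 2 ≤ (W ε (Ns k)) ^ 2 := Nat.pow_le_pow_left e4 2
              exact_mod_cast this
            linarith
          have e6 := cnt_bound hgm.1.ne_zero e1 (M := Ms k) le_rfl (X ε (Ms k) : GaussianInt)
          refine le_trans e6 ?_
          have e7 : (C0 * 2 ^ j : ℝ) ^ 2 * (Ns j : ℝ) ^ 2 ≤ (g j m).norm := by
            have : (((C0 * 2 ^ j) ^ 2 * (Ns j) ^ 2 : ℕ) : ℤ) ≤ (g j m).norm := hgm.2.2.le
            exact_mod_cast this
          have e8 : (0 : ℝ) ≤ 18 * (2 * (Ms k : ℝ) - 1) ^ 2 := by positivity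
          exact div_le_div_of_nonneg_left e8 hT0 e7
        have h6 := Finset.sum_le_card_nsmul (Bk j) _ _ h5
        have h7 : ((Bk j).card : ℝ) ≤ 4 * (Ns j : ℝ) ^ 2 := by
          have : (Bk j).card ≤ (box (X ε (Ns j) : GaussianInt) (Ns j)).card :=
            Finset.card_le_card fun n hn => (hBmem j n hn).1
          have h8 : ((Bk j).card : ℝ) ≤ (2 * (Ns j : ℝ) - 1) ^ 2 := by
            rw [← card_Phi (ε := ε) (hNspos j)]
            exact_mod_cast this
          nlinarith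
        refine h6.trans ?_
        rw [nsmul_eq_mul]
        calc ((Bk j).card : ℝ) * (18 * (2 * (Ms k : ℝ) - 1) ^ 2 / ((C0 * 2 ^ j : ℝ) ^ 2 * (Ns j : ℝ) ^ 2))
            ≤ (4 * (Ns j : ℝ) ^ 2) * (18 * (2 * (Ms k : ℝ) - 1) ^ 2 / ((C0 * 2 ^ j : ℝ) ^ 2 * (Ns j : ℝ) ^ 2)) := by
              gcongr
          _ = 72 * (2 * (Ms k : ℝ) - 1) ^ 2 / (C0 : ℝ) ^ 2 * (1 / 4 : ℝ) ^ j := by
              have e9 : (1 / 4 : ℝ) ^ j = 1 / ((2 : ℝ) ^ j) ^ 2 := by
                rw [one_div_pow, ← pow_mul, mul_comm j 2, pow_mul]; norm_num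
              rw [e9]
              field_simp
              ring
      have h5 : ∑ j ∈ Finset.range (k + 1), (1 / 4 : ℝ) ^ j ≤ 4 / 3 := by
        rw [geom_sum_eq (by norm_num)]
        have : (0 : ℝ) ≤ (1 / 4 : ℝ) ^ (k + 1) := by positivity
        rw [div_le_iff_of_neg (by norm_num)]
        linarith
      have h6 : (D.card : ℝ) ≤ ∑ j ∈ Finset.range (k + 1), ∑ m ∈ Bk j, (cnt Ph (g j m) : ℝ) := by
        exact_mod_cast h3
      have h7 : ∑ j ∈ Finset.range (k + 1), ∑ m ∈ Bk j, (cnt Ph (g j m) : ℝ) ≤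
          72 * (2 * (Ms k : ℝ) - 1) ^ 2 / (C0 : ℝ) ^ 2 * (4 / 3) := by
        refine (Finset.sum_le_sum h4).trans ?_
        rw [← Finset.mul_sum]
        gcongr
      refine (h6.trans h7).trans ?_
      have h8 : 192 ≤ c * (C0 : ℝ) ^ 2 := by
        rw [div_le_iff₀ hc0] at hC02
        nlinarith
      have h9 : 72 * (2 * (Ms k : ℝ) - 1) ^ 2 / (C0 : ℝ) ^ 2 * (4 / 3) =
          (96 / (C0 : ℝ) ^ 2) * (2 * (Ms k : ℝ) - 1) ^ 2 := by
        field_simp; ring
      rw [h9]
      apply mul_le_mul_of_nonneg_right _ (sq_nonneg _)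
      rw [div_le_iff₀ (by positivity)]
      linarith
    have h3 : (Ph.card : ℝ) = (2 * (Ms k : ℝ) - 1) ^ 2 := card_Phi (hMspos k)
    linarith
  -- conclusion
  have hNst : Tendsto Ns atTop atTop := hNsmono.tendsto_atTop
  have hMst : Tendsto Ms atTop atTop := by
    apply tendsto_atTop_mono (f := Ns) _ hNst
    intro k
    have := le_W ε (Ns k)
    simp only [hMs]
    omega
  have h1 : L ≤ 1 - c := le_of_tendsto' (hL.comp hNst) hsmall
  have h2 : 1 - c / 2 ≤ L := ge_of_tendsto' (hL.comp hMst) hlarge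
  linarith

end Pool.Agent.Lib.MP_acc225_nt
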